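import Mathlib

/-! Binary digits: reals with prescribed digits, reading off two interleaved streams. -/

namespace Pool.Agent.V11258.HD
open Real Set MeasureTheory Filter Topology
open scoped ENNReal NNReal

lemma ofDigits_succ (w : ℕ → Fin 2) :
    ofDigits w = ((w 0 : ℕ) : ℝ) / 2 + ofDigits (fun i => w (i + 1)) / 2 := by
  rw [ofDigits_eq_sum_add_ofDigits w 1]
  simp [ofDigitsTerm]
  ring

lemma ofDigits_lt_one : ∀ (k : ℕ) (w : ℕ → Fin 2), w k = 0 → ofDigits w < 1 := by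
  intro k
  induction k with
  | zero =>
    intro w hw
    rw [ofDigits_succ, hw]
    have := ofDigits_le_one (fun i => w (i + 1))
    simp
    linarith
  | succ k ih =>
    intro w hw
    rw [ofDigits_succ]
    have h1 := ih (fun i => w (i + 1)) hw
    have h2 : ((w 0 : ℕ) : ℝ) ≤ 1 := by
      have : (w 0 : ℕ) ≤ 1 := by omega
      exact_mod_cast this
    linarith

/-- The integer formed by the first `n` digits. -/
def pre (z : ℕ → Fin 2) : ℕ → ℕ
  | 0 => 0
  | n + 1 => 2 * pre z n + z n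

lemma mul_pow_eq (z : ℕ → Fin 2) (n : ℕ) :
    ofDigits z * 2 ^ n = pre z n + ofDigits (fun i => z (i + n)) := by
  induction n with
  | zero => simp [pre]
  | succ n ih =>
    rw [pow_succ, ← mul_assoc, ih, ofDigits_succ (fun i => z (i + n)), pre]
    have : (fun i => z (i + 1 + n)) = fun i => z (i + (n + 1)) := by
      funext i; congr 1; ring
    rw [this]
    push_cast
    simp only [zero_add]
    ring

lemma digits_ofDigits (z : ℕ → Fin 2) (hz : ∀ n, ∃ k, z (k + n) = 0) :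
    digits (ofDigits z) 2 = z := by
  funext n
  have h1 := mul_pow_eq z (n + 1)
  obtain ⟨k, hk⟩ := hz (n + 1)
  have h2 : ofDigits (fun i => z (i + (n + 1))) < 1 := ofDigits_lt_one k _ hk
  have h3 : 0 ≤ ofDigits (fun i => z (i + (n + 1))) := ofDigits_nonneg _
  have h4 : ⌊ofDigits z * ((2 : ℕ) : ℝ) ^ (n + 1)⌋₊ = pre z (n + 1) := by
    rw [Nat.floor_eq_iff (by have := ofDigits_nonneg z; positivity)]
    push_cast
    rw [h1]
    constructor <;> linarith
  unfold digits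
  rw [h4, pre]
  apply Fin.ext
  simp [Fin.ofNat]
  omega

lemma measurable_digits (k : ℕ) : Measurable (fun x : ℝ => digits x 2 k) := by
  unfold digits
  exact (Measurable.of_discrete (f := fun m : ℕ => Fin.ofNat 2 m)).comp
    (Nat.measurable_floor.comp (measurable_id.mul_const _))

/-- Digits below `n` depend only on `⌊2^n x⌋`. -/
lemma digits_congr {x y : ℝ} {n : ℕ} (h : ⌊x * 2 ^ n⌋₊ = ⌊y * 2 ^ n⌋₊) {k : ℕ} (hk : k < n) :
    digits x 2 k = digits y 2 k := by
  unfold digits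
  have key : ∀ x : ℝ, ⌊x * ((2 : ℕ) : ℝ) ^ (k + 1)⌋₊ = ⌊x * 2 ^ n⌋₊ / 2 ^ (n - (k + 1)) := by
    intro x
    rw [← Nat.floor_div_natCast]
    congr 1
    have : (2 : ℝ) ^ n = 2 ^ (k + 1) * 2 ^ (n - (k + 1)) := by
      rw [← pow_add]; congr 1; omega
    rw [this]
    push_cast
    field_simp
  rw [key x, key y, h]

section Merge

variable (S : ℕ → Prop) [DecidablePred S]

/-- Interleave `b` (on `S`) and `y` (off `S`). -/
def merge (b y : ℕ → Fin 2) (k : ℕ) : Fin 2 :=
  if S k then b (Nat.count S k) else y (Nat.count (fun i => ¬ S i) k)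

/-- Read the digits of `t` in positions of `S`. -/
noncomputable def rdS (t : ℝ) (j : ℕ) : Fin 2 := digits t 2 (Nat.nth S j)

/-- Read the digits of `t` in positions off `S`. -/
noncomputable def rdC (t : ℝ) : ℝ := ofDigits (fun j => digits t 2 (Nat.nth (fun i => ¬ S i) j))

lemma measurable_rdS : Measurable (rdS S) :=
  measurable_pi_lambda _ fun j => measurable_digits _

variable {S}

lemma merge_S (hS : Set.Infinite {k | S k}) (b y : ℕ → Fin 2) (j : ℕ) :
    merge S b y (Nat.nth S j) = b j := by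
  unfold merge
  rw [if_pos (Nat.nth_mem_of_infinite hS j), Nat.count_nth_of_infinite hS]

lemma merge_C (hC : Set.Infinite {k | ¬ S k}) (b y : ℕ → Fin 2) (j : ℕ) :
    merge S b y (Nat.nth (fun i => ¬ S i) j) = y j := by
  unfold merge
  rw [if_neg (Nat.nth_mem_of_infinite hC j), Nat.count_nth_of_infinite hC]

/-- If the code has infinitely many zeros, so has the merged sequence. -/
lemma merge_zero (hS : Set.Infinite {k | S k}) (b y : ℕ → Fin 2) (hb : ∀ n, ∃ k, b (k + n) = 0) (n : ℕ) :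
    ∃ k, merge S b y (k + n) = 0 := by
  obtain ⟨k, hk⟩ := hb n
  have h1 : n ≤ Nat.nth S (k + n) :=
    le_trans (by omega) (Nat.nth_strictMono hS).le_apply
  exact ⟨Nat.nth S (k + n) - n, by rw [Nat.sub_add_cancel h1, merge_S hS]; exact hk⟩

lemma mem_Ico_of_zero (z : ℕ → Fin 2) (hz : ∀ n, ∃ k, z (k + n) = 0) :
    ofDigits z ∈ Ico (0 : ℝ) 1 := by
  obtain ⟨k, hk⟩ := hz 0
  exact ⟨ofDigits_nonneg z, ofDigits_lt_one k z (by simpa using hk)⟩

lemma rdS_merge (hS : Set.Infinite {k | S k}) (b y : ℕ → Fin 2) (hb : ∀ n, ∃ k, b (k + n) = 0) :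
    rdS S (ofDigits (merge S b y)) = b := by
  funext j
  unfold rdS
  rw [digits_ofDigits _ (merge_zero hS b y hb), merge_S hS]

lemma rdC_merge (hS : Set.Infinite {k | S k}) (hC : Set.Infinite {k | ¬ S k})
    (b : ℕ → Fin 2) (hb : ∀ n, ∃ k, b (k + n) = 0) {y : ℝ} (hy : y ∈ Ico (0 : ℝ) 1) :
    rdC S (ofDigits (merge S b (digits y 2))) = y := by
  unfold rdC
  rw [digits_ofDigits _ (merge_zero hS b _ hb)]
  have : (fun j => merge S b (digits y 2) (Nat.nth (fun i => ¬ S i) j)) = digits y 2 := by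
    funext j; exact merge_C hC b _ j
  rw [this]
  exact ofDigits_digits (by norm_num) hy

/-- Image of a dyadic interval under `rdC`. -/
lemma rdC_dyadic (hC : Set.Infinite {k | ¬ S k}) (n a : ℕ) :
    volume (rdC S '' {t | ⌊t * 2 ^ n⌋₊ = a}) ≤
      ENNReal.ofReal ((2 ^ (Nat.count (fun i => ¬ S i) n))⁻¹) := by
  refine (Real.volume_le_diam _).trans ?_
  apply Metric.ediam_le
  rintro _ ⟨t, ht, rfl⟩ _ ⟨t', ht', rfl⟩
  rw [edist_dist, Real.dist_eq]
  apply ENNReal.ofReal_le_ofReal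
  unfold rdC
  have := abs_ofDigits_sub_ofDigits_le (b := 2)
    (x := fun j => digits t 2 (Nat.nth (fun i => ¬ S i) j))
    (y := fun j => digits t' 2 (Nat.nth (fun i => ¬ S i) j))
    (n := Nat.count (fun i => ¬ S i) n) ?_
  · simpa using this
  · intro j hj
    exact digits_congr (n := n) (by rw [ht, ht']) (Nat.nth_lt_of_lt_count hj)

/-- A set of diameter at most `2^{-n}` has small image under `rdC`. -/
lemma rdC_small (hC : Set.Infinite {k | ¬ S k}) (n : ℕ) (D : Set ℝ) (hD0 : D ⊆ Ici 0)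
    (hD : Metric.ediam D ≤ ENNReal.ofReal ((2 ^ n)⁻¹)) :
    volume (rdC S '' D) ≤ 2 * ENNReal.ofReal ((2 ^ (Nat.count (fun i => ¬ S i) n))⁻¹) := by
  rcases D.eq_empty_or_nonempty with rfl | ⟨d, hd⟩
  · simp
  let Q : Set ℕ := (fun t : ℝ => ⌊t * 2 ^ n⌋₊) '' D
  have hQ : Q.Nonempty := ⟨_, d, hd, rfl⟩
  obtain ⟨t₀, ht₀, ha⟩ := Nat.sInf_mem hQ
  set a := sInf Q with ha'
  have ha0 : ⌊t₀ * 2 ^ n⌋₊ = a := ha
  have hsub : D ⊆ {t | ⌊t * 2 ^ n⌋₊ = a} ∪ {t | ⌊t * 2 ^ n⌋₊ = a + 1} := by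
    intro t ht
    have h1 : a ≤ ⌊t * 2 ^ n⌋₊ := Nat.sInf_le ⟨t, ht, rfl⟩
    have h2 : edist t t₀ ≤ ENNReal.ofReal ((2 ^ n)⁻¹) :=
      (Metric.edist_le_ediam_of_mem ht ht₀).trans hD
    rw [edist_dist, ENNReal.ofReal_le_ofReal_iff (by positivity), Real.dist_eq] at h2
    have h3 : t - t₀ ≤ (2 ^ n)⁻¹ := (le_abs_self _).trans h2
    have h4 : t * 2 ^ n ≤ t₀ * 2 ^ n + 1 := by
      have hp : (0 : ℝ) < 2 ^ n := by positivity
      have := mul_le_mul_of_nonneg_right h3 hp.le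
      rw [inv_mul_cancel₀ hp.ne'] at this
      linarith
    have h5 : t₀ * 2 ^ n < a + 1 := by rw [← ha0]; exact Nat.lt_floor_add_one _
    have h6 : ⌊t * 2 ^ n⌋₊ < a + 2 := by
      rw [Nat.floor_lt (by have := hD0 ht; simp at this; positivity)]
      push_cast
      linarith
    rcases (by omega : ⌊t * 2 ^ n⌋₊ = a ∨ ⌊t * 2 ^ n⌋₊ = a + 1) with h | h
    · exact Or.inl h
    · exact Or.inr h
  calc volume (rdC S '' D) ≤ volume (rdC S '' {t | ⌊t * 2 ^ n⌋₊ = a} ∪
        rdC S '' {t | ⌊t * 2 ^ n⌋₊ = a + 1}) := by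
        apply measure_mono
        rw [← image_union]
        exact image_mono hsub
    _ ≤ _ := by
        refine (measure_union_le _ _).trans ?_
        rw [two_mul]
        exact add_le_add (rdC_dyadic hC n a) (rdC_dyadic hC n (a + 1))

end Merge

end Pool.Agent.V11258.HD
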