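import Mathlib

/-! Non-null sets of minimal size, transfer to atomless measures, codes of null sets. -/

namespace Pool.Agent.V11258.HD
open Real Set MeasureTheory Filter Topology Cardinal
open scoped ENNReal NNReal

/-! ### Transfer from Lebesgue measure to atomless finite measures -/

lemma cdf_preimage_le (μ : Measure ℝ) [IsFiniteMeasure μ] (h0 : ∀ x, μ {x} = 0) (a b : ℝ)
    (F : ℝ → ℝ) (hF : ∀ x, F x = (μ (Iic x)).toReal) (hFm : Measurable F) :
    μ (F ⁻¹' Icc a b) ≤ ENNReal.ofReal (b - a) := by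
  by_contra hcon
  push Not at hcon
  obtain ⟨K, hKQ, hK, hlt⟩ := MeasurableSet.exists_lt_isCompact_of_ne_top
    (hFm measurableSet_Icc) (measure_ne_top μ _) hcon
  have hne : K.Nonempty := by
    rcases K.eq_empty_or_nonempty with rfl | h
    · simp at hlt
    · exact h
  have hx := hK.sInf_mem hne
  have hx' := hK.sSup_mem hne
  have hsub : K ⊆ Icc (sInf K) (sSup K) := fun t ht =>
    ⟨csInf_le hK.bddBelow ht, le_csSup hK.bddAbove ht⟩
  have hle : sInf K ≤ sSup K := (hsub hx).2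
  have h1 : μ K ≤ μ (Ioc (sInf K) (sSup K)) := by
    calc μ K ≤ μ ({sInf K} ∪ Ioc (sInf K) (sSup K)) := by
          apply measure_mono
          intro t ht
          rcases (hsub ht).1.eq_or_lt with h | h
          · left; simp [h]
          · right; exact ⟨h, (hsub ht).2⟩
      _ ≤ μ {sInf K} + μ (Ioc (sInf K) (sSup K)) := measure_union_le _ _
      _ = _ := by rw [h0, zero_add]
  have h2 : μ (Ioc (sInf K) (sSup K)) = ENNReal.ofReal (F (sSup K) - F (sInf K)) := by
    have h3 : Ioc (sInf K) (sSup K) = Iic (sSup K) \ Iic (sInf K) := by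
      ext t; simp only [mem_Ioc, Set.mem_sdiff, mem_Iic, not_le]; tauto
    rw [h3, measure_sdiff (Iic_subset_Iic.2 hle) measurableSet_Iic.nullMeasurableSet
      (measure_ne_top _ _), hF, hF, ENNReal.ofReal_sub _ ENNReal.toReal_nonneg,
      ENNReal.ofReal_toReal (measure_ne_top _ _), ENNReal.ofReal_toReal (measure_ne_top _ _)]
  have h4 : F (sSup K) - F (sInf K) ≤ b - a := by
    have h5 : F (sSup K) ≤ b := (hKQ hx').2
    have h6 : a ≤ F (sInf K) := (hKQ hx).1
    linarith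
  have := h1.trans (h2.le.trans (ENNReal.ofReal_le_ofReal h4))
  exact absurd hlt (not_lt.2 this)

lemma map_cdf_le (μ : Measure ℝ) [IsFiniteMeasure μ] (h0 : ∀ x, μ {x} = 0)
    (F : ℝ → ℝ) (hF : ∀ x, F x = (μ (Iic x)).toReal) (hFm : Measurable F) :
    μ.map F ≤ volume := by
  rw [← hausdorffMeasure_real]
  apply Measure.le_hausdorffMeasure 1 (μ.map F) 1 one_pos
  intro s hs
  rcases s.eq_empty_or_nonempty with rfl | hne
  · simp
  have hb : Bornology.IsBounded s := by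
    rw [Metric.isBounded_iff_ediam_ne_top]
    exact ne_top_of_le_ne_top ENNReal.one_ne_top hs
  have hsub : s ⊆ Icc (sInf s) (sSup s) := fun t ht =>
    ⟨csInf_le hb.bddBelow ht, le_csSup hb.bddAbove ht⟩
  rw [Real.ediam_eq hb, ENNReal.rpow_one]
  calc μ.map F s ≤ μ.map F (Icc (sInf s) (sSup s)) := measure_mono hsub
    _ = μ (F ⁻¹' Icc (sInf s) (sSup s)) := Measure.map_apply hFm measurableSet_Icc
    _ ≤ _ := cdf_preimage_le μ h0 _ _ F hF hFm

/-- If all sets of size `< κ` are Lebesgue null, they are null for all atomless finite measures. -/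
lemma null_of_small (κ : Cardinal) (hκ : ∀ T : Set ℝ, #T < κ → volume T = 0)
    (μ : Measure ℝ) [IsFiniteMeasure μ] (h0 : ∀ x, μ {x} = 0) (T : Set ℝ) (hT : #T < κ) :
    μ T = 0 := by
  let F : ℝ → ℝ := fun x => (μ (Iic x)).toReal
  have hmono : Monotone F := fun x y hxy =>
    ENNReal.toReal_mono (measure_ne_top _ _) (measure_mono (Iic_subset_Iic.2 hxy))
  have hFm : Measurable F := hmono.measurable
  have h1 : volume (F '' T) = 0 := hκ _ (lt_of_le_of_lt mk_image_le hT)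
  have h2 : μ.map F (F '' T) = 0 :=
    le_antisymm ((map_cdf_le μ h0 F (fun _ => rfl) hFm (F '' T)).trans h1.le) zero_le
  have h3 := Measure.preimage_null_of_map_null hFm.aemeasurable h2
  exact measure_mono_null (subset_preimage_image F T) h3

/-! ### A non-null set of minimal size -/

lemma exists_min : ∃ Y : Set ℝ, Y ⊆ Ico (0 : ℝ) 1 ∧ volume Y ≠ 0 ∧
    ∀ T : Set ℝ, #T < #Y → volume T = 0 := by
  let P : Set (Set ℝ) := {T | T ⊆ Ico (0 : ℝ) 1 ∧ volume T ≠ 0}
  have hP : P.Nonempty := ⟨Ico 0 1, subset_rfl, by simp⟩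
  obtain ⟨Y, hY, hmin⟩ := (InvImage.wf (fun T : Set ℝ => #T) Cardinal.lt_wf).has_min P hP
  refine ⟨Y, hY.1, hY.2, ?_⟩
  have hmin' : ∀ T : Set ℝ, T ⊆ Ico (0 : ℝ) 1 → #T < #Y → volume T = 0 := by
    intro T hT hlt
    by_contra h
    exact hmin T ⟨hT, h⟩ hlt
  intro T hT
  have hcov : T ⊆ ⋃ n : ℤ, T ∩ Ico (n : ℝ) (n + 1) := by
    intro t ht
    rw [mem_iUnion]
    exact ⟨⌊t⌋, ht, Int.floor_le t, Int.lt_floor_add_one t⟩
  refine measure_mono_null hcov (measure_iUnion_null fun n => ?_)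
  have h1 : volume ((fun t => t + (n : ℝ)) ⁻¹' (T ∩ Ico (n : ℝ) (n + 1))) = 0 := by
    apply hmin'
    · intro t ht
      simp only [mem_preimage, mem_inter_iff, mem_Ico] at ht
      exact ⟨by linarith [ht.2.1], by linarith [ht.2.2]⟩
    · refine lt_of_le_of_lt ?_ hT
      refine (mk_preimage_of_injective _ _ (add_left_injective (n : ℝ))).trans ?_
      exact mk_le_mk_of_subset inter_subset_left
  rwa [measure_preimage_add_right] at h1

/-! ### Codes of null sets -/

lemma basis_nonempty : (TopologicalSpace.countableBasis ℝ).Nonempty := by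
  obtain ⟨B, hB, -, -⟩ := (TopologicalSpace.isBasis_countableBasis ℝ).exists_subset_of_mem_open
    (mem_univ (0 : ℝ)) isOpen_univ
  exact ⟨B, hB⟩

/-- A countable base of the reals. -/
noncomputable def bas : ℕ → Set ℝ :=
  ((TopologicalSpace.countable_countableBasis ℝ).exists_eq_range
    basis_nonempty).choose

lemma bas_spec : TopologicalSpace.countableBasis ℝ = range bas :=
  ((TopologicalSpace.countable_countableBasis ℝ).exists_eq_range
    basis_nonempty).choose_spec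

lemma bas_open (i : ℕ) : IsOpen (bas i) :=
  TopologicalSpace.isOpen_of_mem_countableBasis (by rw [bas_spec]; exact ⟨i, rfl⟩)

lemma bas_mem {U : Set ℝ} (hU : IsOpen U) {x : ℝ} (hx : x ∈ U) : ∃ i, x ∈ bas i ∧ bas i ⊆ U := by
  obtain ⟨B, hB, hxB, hBU⟩ :=
    (TopologicalSpace.isBasis_countableBasis ℝ).exists_subset_of_mem_open hx hU
  rw [bas_spec] at hB
  obtain ⟨i, rfl⟩ := hB
  exact ⟨i, hxB, hBU⟩

/-- The `k`-th open set of the code `b`. -/
def V (b : ℕ → Fin 2) (k : ℕ) : Set ℝ := {y | ∃ i, b (2 * Nat.pair k i) = 1 ∧ y ∈ bas i}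

/-- The null set coded by `b`. -/
def W (b : ℕ → Fin 2) : Set ℝ :=
  {y | (∀ k, volume (V b k) ≤ (2 : ℝ≥0∞)⁻¹ ^ k) ∧ ∀ k, y ∈ V b k}

lemma W_null (b : ℕ → Fin 2) : volume (W b) = 0 := by
  by_cases h : ∀ k, volume (V b k) ≤ (2 : ℝ≥0∞)⁻¹ ^ k
  · have h1 : ∀ k, volume (W b) ≤ (2 : ℝ≥0∞)⁻¹ ^ k := fun k =>
      (measure_mono fun y hy => hy.2 k).trans (h k)
    have h2 : Tendsto (fun k : ℕ => (2 : ℝ≥0∞)⁻¹ ^ k) atTop (𝓝 0) :=
      ENNReal.tendsto_pow_atTop_nhds_zero_of_lt_one (by norm_num)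
    exact le_antisymm (ge_of_tendsto' h2 h1) zero_le
  · have : W b = ∅ := by
      ext y; simp only [W, mem_ofPred_eq, mem_empty_iff_false, iff_false]
      exact fun hy => h hy.1
    rw [this]; simp

lemma exists_code {N : Set ℝ} (hN : volume N = 0) :
    ∃ b : ℕ → Fin 2, (∀ n, ∃ k, b (k + n) = 0) ∧ N ⊆ W b := by
  classical
  have h1 : ∀ k : ℕ, ∃ U : Set ℝ, N ⊆ U ∧ IsOpen U ∧ volume U ≤ (2 : ℝ≥0∞)⁻¹ ^ k := by
    intro k
    obtain ⟨U, hNU, hU, hlt⟩ := Set.exists_isOpen_lt_of_lt N ((2 : ℝ≥0∞)⁻¹ ^ k)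
      (by rw [hN]; exact ENNReal.pow_pos (by norm_num) k)
    exact ⟨U, hNU, hU, hlt.le⟩
  choose U hNU hU hvol using h1
  let b : ℕ → Fin 2 := fun m =>
    if m % 2 = 0 ∧ bas (Nat.unpair (m / 2)).2 ⊆ U (Nat.unpair (m / 2)).1 then 1 else 0
  have hb : ∀ k i, b (2 * Nat.pair k i) = 1 ↔ bas i ⊆ U k := by
    intro k i
    have : b (2 * Nat.pair k i) = if bas i ⊆ U k then 1 else 0 := by
      simp only [b]
      have e1 : 2 * Nat.pair k i % 2 = 0 := by omega
      have e2 : 2 * Nat.pair k i / 2 = Nat.pair k i := by omega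
      rw [e1, e2, Nat.unpair_pair]
      simp
    rw [this]
    split_ifs with h <;> simp [h]
  have hV : ∀ k, V b k = U k := by
    intro k
    ext y
    simp only [V, mem_ofPred_eq]
    constructor
    · rintro ⟨i, hi, hy⟩
      exact (hb k i).1 hi hy
    · intro hy
      obtain ⟨i, hi, hs⟩ := bas_mem (hU k) hy
      exact ⟨i, (hb k i).2 hs, hi⟩
  refine ⟨b, ?_, ?_⟩
  · intro n
    refine ⟨n + 1, ?_⟩
    simp only [b]
    rw [if_neg]
    rintro ⟨h, -⟩
    omega
  · intro y hy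
    exact ⟨fun k => by rw [hV]; exact hvol k, fun k => by rw [hV]; exact hNU k hy⟩

lemma measurableSet_V (k : ℕ) : MeasurableSet {p : (ℕ → Fin 2) × ℝ | p.2 ∈ V p.1 k} := by
  have : {p : (ℕ → Fin 2) × ℝ | p.2 ∈ V p.1 k} =
      ⋃ i, {p : (ℕ → Fin 2) × ℝ | p.1 (2 * Nat.pair k i) = 1} ∩ {p | p.2 ∈ bas i} := by
    ext p
    simp only [V, mem_ofPred_eq, mem_iUnion, mem_inter_iff]
  rw [this]
  refine MeasurableSet.iUnion fun i => MeasurableSet.inter ?_ ?_
  · have : Measurable fun p : (ℕ → Fin 2) × ℝ => p.1 (2 * Nat.pair k i) :=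
      (measurable_pi_apply _).comp measurable_fst
    exact this (MeasurableSet.singleton 1)
  · exact measurable_snd (bas_open i).measurableSet

lemma measurableSet_W : MeasurableSet {p : (ℕ → Fin 2) × ℝ | p.2 ∈ W p.1} := by
  have : {p : (ℕ → Fin 2) × ℝ | p.2 ∈ W p.1} =
      (⋂ k, {p : (ℕ → Fin 2) × ℝ | volume (V p.1 k) ≤ (2 : ℝ≥0∞)⁻¹ ^ k}) ∩
      (⋂ k, {p : (ℕ → Fin 2) × ℝ | p.2 ∈ V p.1 k}) := by
    ext p
    simp only [W, mem_ofPred_eq, mem_inter_iff, mem_iInter]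
  rw [this]
  refine MeasurableSet.inter (MeasurableSet.iInter fun k => ?_)
    (MeasurableSet.iInter fun k => measurableSet_V k)
  have h1 : Measurable fun b : ℕ → Fin 2 => volume (V b k) :=
    measurable_measure_prodMk_left (ν := (volume : Measure ℝ)) (measurableSet_V k)
  exact (h1.comp measurable_fst) measurableSet_Iic

end Pool.Agent.V11258.HD
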