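import Pool.Agent.V11258.HD.Digits
import Pool.Agent.V11258.HD.Meas

/-! Hausdorff measures on the line for gauges: universally null sets of positive measure. -/

namespace Pool.Agent.V11258.HD
open Real Set MeasureTheory Filter Topology Cardinal
open scoped ENNReal NNReal

/-- Gauge functions `[0,∞) → [0,∞)`: nondecreasing, right-continuous, zero exactly at zero. -/
def IsGauge (f : ℝ≥0 → ℝ≥0) : Prop :=
  Monotone f ∧ (∀ x, ContinuousWithinAt f (Ici x) x) ∧ f 0 = 0 ∧ ∀ t, 0 < t → 0 < f t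

/-- `H^f_δ(A)`: infimum of `∑ f(diam U_i)` over countable covers with `diam U_i ≤ δ`. -/
noncomputable def Hd (f : ℝ≥0 → ℝ≥0) (δ : ℝ≥0) (A : Set ℝ) : ℝ≥0∞ :=
  ⨅ (U : ℕ → Set ℝ) (_ : A ⊆ ⋃ i, U i) (_ : ∀ i, Metric.ediam (U i) ≤ δ),
    ∑' i, (f (Metric.ediam (U i)).toNNReal : ℝ≥0∞)

/-- `H^f(A) = lim_{δ → 0+} H^f_δ(A) = sup_{δ > 0} H^f_δ(A)`. -/
noncomputable def H (f : ℝ≥0 → ℝ≥0) (A : Set ℝ) : ℝ≥0∞ :=
  ⨆ (δ : ℝ≥0) (_ : 0 < δ), Hd f δ A

lemma Hd_anti (f : ℝ≥0 → ℝ≥0) (A : Set ℝ) : Antitone fun δ => Hd f δ A := by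
  intro δ δ' h
  exact iInf_mono fun U => iInf_mono fun _ => iInf_mono' fun h' =>
    ⟨fun i => (h' i).trans (by exact_mod_cast h), le_rfl⟩

lemma H_tendsto (f : ℝ≥0 → ℝ≥0) (A : Set ℝ) :
    Tendsto (fun δ => Hd f δ A) (𝓝[>] 0) (𝓝 (H f A)) := by
  have := (Hd_anti f A).tendsto_nhdsGT 0
  rwa [sSup_image] at this

/-- The set function used by Mathlib. -/
noncomputable def cost (f : ℝ≥0 → ℝ≥0) (x : ℝ≥0∞) : ℝ≥0∞ := (f x.toNNReal : ℝ≥0∞)

lemma tsum_cost {f : ℝ≥0 → ℝ≥0} (h0 : f 0 = 0) (t : ℕ → Set ℝ) :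
    ∑' n, ⨆ _ : (t n).Nonempty, cost f (Metric.ediam (t n)) =
      ∑' n, (f (Metric.ediam (t n)).toNNReal : ℝ≥0∞) := by
  refine tsum_congr fun n => ?_
  rcases (t n).eq_empty_or_nonempty with h | h
  · simp [h, h0]
  · simp [h, cost]

lemma H_eq {f : ℝ≥0 → ℝ≥0} (h0 : f 0 = 0) (A : Set ℝ) :
    H f A = Measure.mkMetric (cost f) A := by
  rw [Measure.mkMetric_apply]
  simp_rw [tsum_cost h0]
  apply le_antisymm
  · refine iSup₂_le fun δ hδ => ?_
    exact le_iSup₂_of_le (δ : ℝ≥0∞) (by exact_mod_cast hδ) le_rfl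
  · refine iSup₂_le fun r hr => ?_
    have h1 : (0 : ℝ≥0) < (min r 1).toNNReal :=
      ENNReal.toNNReal_pos (by simp [hr.ne']) (by simp)
    refine le_iSup₂_of_le (min r 1).toNNReal h1 ?_
    refine iInf_mono fun U => iInf_mono fun _ => iInf_mono' fun h' =>
      ⟨fun i => (h' i).trans ?_, le_rfl⟩
    rw [ENNReal.coe_toNNReal (by simp)]
    exact min_le_left _ _

/-- `f(t)/t → ∞` as `t → 0+`. -/
def Steep (f : ℝ≥0 → ℝ≥0) : Prop := ∀ M : ℝ≥0, ∃ δ > 0, ∀ t, 0 < t → t < δ → M * t ≤ f t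

lemma count_compl (S : ℕ → Prop) [DecidablePred S] (n : ℕ) :
    Nat.count S n + Nat.count (fun i => ¬ S i) n = n := by
  induction n with
  | zero => simp
  | succ n ih =>
    rw [Nat.count_succ, Nat.count_succ]
    by_cases h : S n <;> simp [h] <;> omega

lemma exists_sparse {f : ℝ≥0 → ℝ≥0} (hf : Steep f) :
    ∃ (S : ℕ → Prop) (_ : DecidablePred S) (n₀ : ℕ), Set.Infinite {k | S k} ∧
      Set.Infinite {k | ¬ S k} ∧
      ∀ n ≥ n₀, 2 * ((2 : ℝ≥0) ^ (Nat.count (fun i => ¬ S i) n))⁻¹ ≤ f ((2 ^ (n + 1))⁻¹) := by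
  classical
  have h1 : ∀ j : ℕ, ∃ N : ℕ, ∀ n ≥ N, (2 : ℝ≥0) ^ (j + 2) * (2 ^ (n + 1))⁻¹ ≤ f ((2 ^ (n + 1))⁻¹) := by
    intro j
    obtain ⟨δ, hδ, h⟩ := hf (2 ^ (j + 2))
    have h2 : Tendsto (fun n : ℕ => ((2 : ℝ≥0) ^ (n + 1))⁻¹) atTop (𝓝 0) := by
      have := (NNReal.tendsto_pow_atTop_nhds_zero_of_lt_one
        (show (2 : ℝ≥0)⁻¹ < 1 by exact inv_lt_one_of_one_lt₀ (by norm_num))).comp
        (tendsto_add_atTop_nat 1)
      simpa [Function.comp_def, inv_pow] using this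
    obtain ⟨N, hN⟩ := eventually_atTop.1 (h2.eventually (gt_mem_nhds hδ))
    exact ⟨N, fun n hn => h _ (by positivity) (hN n hn)⟩
  choose N hN using h1
  let φ : ℕ → ℕ := fun j => j + ∑ i ∈ Finset.range (j + 2), N i
  have hφmono : StrictMono φ := by
    apply strictMono_nat_of_lt_succ
    intro j
    simp only [φ]
    rw [Finset.sum_range_succ _ (j + 2)]
    omega
  have hφN : ∀ j, N (j + 1) ≤ φ j := by
    intro j
    have := Finset.single_le_sum (f := N) (fun i _ => Nat.zero_le _)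
      (Finset.mem_range.2 (show j + 1 < j + 2 by omega))
    simp only [φ]; omega
  let S : ℕ → Prop := fun k => ∃ j, k = 2 * φ j
  have hcount : ∀ j n, n ≤ 2 * φ j → Nat.count S n ≤ j := by
    intro j n hn
    rw [Nat.count_eq_card_filter_range]
    calc _ ≤ ((Finset.range j).image fun i => 2 * φ i).card := by
          apply Finset.card_le_card
          intro k hk
          simp only [Finset.mem_filter, Finset.mem_range] at hk
          obtain ⟨hk1, i, rfl⟩ := hk
          refine Finset.mem_image.2 ⟨i, Finset.mem_range.2 ?_, rfl⟩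
          exact hφmono.lt_iff_lt.1 (by omega)
      _ ≤ (Finset.range j).card := Finset.card_image_le
      _ = j := Finset.card_range j
  refine ⟨S, inferInstance, N 0, ?_, ?_, ?_⟩
  · refine Set.infinite_of_injective_forall_mem (f := fun j => 2 * φ j) ?_ ?_
    · intro a b hab
      exact hφmono.injective (by simp only at hab; omega)
    · intro j; exact ⟨j, rfl⟩
  · refine Set.infinite_of_injective_forall_mem (f := fun j : ℕ => 2 * j + 1) ?_ ?_
    · intro a b hab
      simp only at hab; omega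
    · rintro j ⟨i, hi⟩
      omega
  · intro n hn
    set c := Nat.count S n with hc
    have hcn : N c ≤ n := by
      rcases hc' : c with _ | j
      · exact hn
      · by_contra hcon
        have : n ≤ 2 * φ j := by have := hφN j; omega
        have := hcount j n this
        omega
    have key := hN c n hcn
    refine le_trans (le_of_eq ?_) key
    have h3 := count_compl S n
    set m := Nat.count (fun i => ¬ S i) n with hm
    have h4 : n = c + m := by omega
    rw [h4]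
    have : (2 : ℝ≥0) ≠ 0 := by norm_num
    field_simp
    ring

/-- Reals coding `(null set, point)` along a minimal non-null set form a universally null set. -/
theorem exists_un (S : ℕ → Prop) [DecidablePred S] (hS : Set.Infinite {k | S k})
    (hC : Set.Infinite {k | ¬ S k}) :
    ∃ X : Set ℝ, X ⊆ Ico 0 1 ∧ volume (rdC S '' X) ≠ 0 ∧
      ∀ μ : Measure ℝ, IsFiniteMeasure μ → (∀ x, μ {x} = 0) → μ X = 0 := by
  obtain ⟨Y, hY01, hY, hmin⟩ := exists_min
  obtain ⟨r, hwo, hord⟩ := Cardinal.exists_ord_eq Y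
  have hseg : ∀ v : Y, #{y : Y | r y v} < #Y := fun v => Cardinal.card_typein_lt v hord
  have hcode : ∀ v : Y, ∃ b : ℕ → Fin 2, (∀ n, ∃ k, b (k + n) = 0) ∧
      Subtype.val '' {y : Y | r y v} ⊆ W b := fun v =>
    exists_code (hmin _ (lt_of_le_of_lt mk_image_le (hseg v)))
  choose b hb0 hbW using hcode
  let z : Y → ℝ := fun y => ofDigits (merge S (b y) (digits (y : ℝ) 2))
  have hz01 : ∀ y, z y ∈ Ico (0 : ℝ) 1 := fun y => mem_Ico_of_zero _ (merge_zero hS _ _ (hb0 y))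
  have hzS : ∀ y, rdS S (z y) = b y := fun y => rdS_merge hS _ _ (hb0 y)
  have hzC : ∀ y, rdC S (z y) = y := fun y => rdC_merge hS hC _ (hb0 y) (hY01 y.2)
  refine ⟨range z, ?_, ?_, ?_⟩
  · rintro _ ⟨y, rfl⟩; exact hz01 y
  · have : Y ⊆ rdC S '' range z := fun y hy => ⟨z ⟨y, hy⟩, ⟨_, rfl⟩, hzC ⟨y, hy⟩⟩
    intro h0
    exact hY (measure_mono_null this h0)
  · intro μ hμ h0
    -- the Borel set of pairs
    let E : Set (ℝ × ℝ) := {p | p.2 ∈ W (rdS S p.1)}
    have hE : MeasurableSet E :=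
      (((measurable_rdS S).comp measurable_fst).prodMk measurable_snd) measurableSet_W
    have hE0 : (μ.prod volume) E = 0 := by
      rw [Measure.prod_apply hE]
      have : ∀ t, volume (Prod.mk t ⁻¹' E) = 0 := fun t => W_null (rdS S t)
      simp [this]
    rw [Measure.prod_apply_symm hE] at hE0
    rw [lintegral_eq_zero_iff (measurable_measure_prodMk_right hE)] at hE0
    -- a good `v` in `Y`
    obtain ⟨v, hv⟩ : ∃ v : Y, μ ((fun t => (t, (v : ℝ))) ⁻¹' E) = 0 := by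
      by_contra hcon
      push Not at hcon
      apply hY
      refine measure_mono_null ?_ hE0
      intro y hy
      exact hcon ⟨y, hy⟩
    have hsplit : range z ⊆ ((fun t => (t, (v : ℝ))) ⁻¹' E) ∪ ({z v} ∪ z '' {y : Y | r y v}) := by
      rintro _ ⟨y, rfl⟩
      rcases trichotomous_of r y v with h | h | h
      · exact Or.inr (Or.inr ⟨y, h, rfl⟩)
      · exact Or.inr (Or.inl (by rw [h]; rfl))
      · left
        simp only [E, mem_preimage, mem_ofPred_eq, hzS]
        exact hbW y ⟨v, h, rfl⟩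
    refine measure_mono_null hsplit ?_
    rw [measure_union_null_iff]
    refine ⟨hv, ?_⟩
    rw [measure_union_null_iff]
    exact ⟨h0 _, null_of_small #Y hmin μ h0 _ (lt_of_le_of_lt mk_image_le (hseg v))⟩

/-- Positivity of the Hausdorff measure. -/
theorem H_pos {f : ℝ≥0 → ℝ≥0} (hf : IsGauge f) (S : ℕ → Prop) [DecidablePred S]
    (hC : Set.Infinite {k | ¬ S k}) (n₀ : ℕ)
    (hn₀ : ∀ n ≥ n₀, 2 * ((2 : ℝ≥0) ^ (Nat.count (fun i => ¬ S i) n))⁻¹ ≤ f ((2 ^ (n + 1))⁻¹))
    (X : Set ℝ) (hX : X ⊆ Ico 0 1) : volume (rdC S '' X) ≤ H f X := by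
  rw [H_eq hf.2.2.1, ← OuterMeasure.coe_mkMetric]
  let θ : OuterMeasure ℝ :=
    OuterMeasure.restrict X (OuterMeasure.comap (rdC S) (volume : Measure ℝ).toOuterMeasure)
  have hθ : ∀ D, θ D = volume (rdC S '' (D ∩ X)) := fun D => by
    simp [θ]
  have hθX : θ X = volume (rdC S '' X) := by rw [hθ, inter_self]
  rw [← hθX]
  refine OuterMeasure.le_mkMetric (cost f) θ (ENNReal.ofReal ((2 ^ n₀)⁻¹)) (by positivity) ?_ X
  intro D hD
  rw [hθ]
  have hDtop : Metric.ediam D ≠ ∞ := ne_top_of_le_ne_top ENNReal.ofReal_ne_top hD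
  rcases eq_or_ne (Metric.ediam D) 0 with h0 | h0
  · have h1 : D.Subsingleton := Metric.ediam_eq_zero_iff.1 h0
    have h2 : (rdC S '' (D ∩ X)).Subsingleton := (h1.anti inter_subset_left).image _
    rw [h2.measure_zero]
    exact zero_le
  · obtain ⟨n, hn1, hn2⟩ := exists_nat_pow_near_of_lt_one (x := (Metric.ediam D).toReal)
      (y := (2 : ℝ)⁻¹) (ENNReal.toReal_pos h0 hDtop) (by
        have := ENNReal.toReal_mono ENNReal.ofReal_ne_top hD
        rw [ENNReal.toReal_ofReal (by positivity)] at this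
        refine this.trans ?_
        exact inv_le_one_of_one_le₀ (one_le_pow₀ (by norm_num))) (by positivity) (by norm_num)
    have hnn₀ : n₀ ≤ n := by
      have h3 := ENNReal.toReal_mono ENNReal.ofReal_ne_top hD
      rw [ENNReal.toReal_ofReal (by positivity)] at h3
      have h4 : ((2 : ℝ)⁻¹) ^ (n + 1) < (2⁻¹) ^ n₀ := by
        refine lt_of_lt_of_le hn1 (h3.trans (le_of_eq ?_))
        rw [inv_pow]
      have h5 := (pow_lt_pow_iff_right_of_lt_one₀ (by positivity) (by norm_num)).1 h4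
      omega
    have h6 : Metric.ediam (D ∩ X) ≤ ENNReal.ofReal ((2 ^ n)⁻¹) := by
      refine (Metric.ediam_mono inter_subset_left).trans ?_
      rw [← ENNReal.ofReal_toReal hDtop]
      apply ENNReal.ofReal_le_ofReal
      rwa [inv_pow] at hn2
    have h7 : D ∩ X ⊆ Ici 0 := fun t ht => (hX ht.2).1
    refine (rdC_small hC n _ h7 h6).trans ?_
    have h8 := hn₀ n hnn₀
    have h9 : ((2 : ℝ≥0) ^ (n + 1))⁻¹ ≤ (Metric.ediam D).toNNReal := by
      rw [← NNReal.coe_le_coe]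
      push_cast
      rw [inv_pow] at hn1
      exact hn1.le
    have h10 := h8.trans (hf.1 h9)
    unfold cost
    calc (2 : ℝ≥0∞) * ENNReal.ofReal ((2 ^ (Nat.count (fun i => ¬ S i) n))⁻¹)
        = ((2 * ((2 : ℝ≥0) ^ (Nat.count (fun i => ¬ S i) n))⁻¹ : ℝ≥0) : ℝ≥0∞) := by
          rw [ENNReal.coe_mul]
          congr 1
          rw [← ENNReal.ofReal_coe_nnreal]
          push_cast
          rfl
      _ ≤ _ := by exact_mod_cast h10

end Pool.Agent.V11258.HD
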